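import Pool.Agent.Y472.K.Defs

/-!
# TK-EXA: the Kashaev invariants of the Turk's head links as sums over configurations

`exa : Pool.Agent.Y472.K.S_EXA`.
-/

set_option autoImplicit false

namespace Pool.Agent.Y941.TK

open Finset Pool.Agent.W711.HT Pool.Agent.Y472 Pool.Agent.Y472.K
open scoped Real

/-! ### Traces of powers -/

section trace

variable {ι : Type*} [Fintype ι] [DecidableEq ι]

theorem pow_path (M : Matrix ι ι ℂ) (m : ℕ) : ∀ a b, (M ^ m) a b =
    ∑ w : Fin (m + 1) → ι, (if w 0 = a then 1 else 0) * ((if w (Fin.last m) = b then 1 else 0) *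
      ∏ s : Fin m, M (w s.castSucc) (w s.succ)) := by
  induction m with
  | zero =>
    intro a b
    rw [pow_zero, Matrix.one_apply, ← (Equiv.funUnique (Fin 1) ι).symm.sum_comp]
    simp only [Equiv.funUnique_symm_apply, uniqueElim_const, Fin.last_zero, univ_eq_empty,
      prod_empty, mul_one]
    rw [Finset.sum_eq_single a]
    · rw [if_pos rfl, one_mul]
    · intro c _ hc
      rw [if_neg hc, zero_mul]
    · intro h
      exact absurd (mem_univ a) h
  | succ m ih =>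
    intro a b
    rw [pow_succ', Matrix.mul_apply, ← (Fin.consEquiv (fun _ => ι)).sum_comp,
      Fintype.sum_prod_type]
    have e1 : ∀ (a' : ι) (w : Fin (m + 1) → ι),
        (∏ s : Fin (m + 1), M ((Fin.consEquiv (fun _ => ι)) (a', w) s.castSucc)
          ((Fin.consEquiv (fun _ => ι)) (a', w) s.succ)) =
        M a' (w 0) * ∏ s : Fin m, M (w s.castSucc) (w s.succ) := by
      intro a' w
      rw [Fin.prod_univ_succ]
      rfl
    have e2 : ∀ (a' : ι) (w : Fin (m + 1) → ι),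
        (Fin.consEquiv (fun _ => ι)) (a', w) 0 = a' := fun a' w => rfl
    have e3 : ∀ (a' : ι) (w : Fin (m + 1) → ι),
        (Fin.consEquiv (fun _ => ι)) (a', w) (Fin.last (m + 1)) = w (Fin.last m) :=
      fun a' w => rfl
    simp only [e1, e2, e3]
    rw [Finset.sum_eq_single (f := fun a' => ∑ w : Fin (m + 1) → ι,
      (if a' = a then (1 : ℂ) else 0) * ((if w (Fin.last m) = b then 1 else 0) *
        (M a' (w 0) * ∏ s : Fin m, M (w s.castSucc) (w s.succ)))) a]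
    · simp only [ih, if_true, one_mul]
      simp only [Finset.mul_sum]
      rw [Finset.sum_comm]
      refine Finset.sum_congr rfl fun w _ => ?_
      rw [Finset.sum_eq_single (w 0)]
      · rw [if_pos rfl]
        ring
      · intro c _ hc
        rw [if_neg (Ne.symm hc)]
        ring
      · intro h
        exact absurd (mem_univ _) h
    · intro c _ hc
      simp only [if_neg hc, zero_mul, Finset.sum_const_zero]
    · intro h
      exact absurd (mem_univ a) h

theorem trace_pow_cyc (M : Matrix ι ι ℂ) (n : ℕ) [NeZero n] : (M ^ n).trace =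
    ∑ w : Fin n → ι, ∏ r : Fin n, M (w r) (w (r + 1)) := by
  obtain ⟨m, rfl⟩ : ∃ m, n = m + 1 := ⟨n - 1, by have := NeZero.pos n; omega⟩
  rw [pow_succ, Matrix.trace]
  simp only [Matrix.diag_apply, Matrix.mul_apply, pow_path]
  simp only [Finset.sum_mul]
  rw [Finset.sum_comm]
  have e : ∀ w : Fin (m + 1) → ι, (∏ r : Fin (m + 1), M (w r) (w (r + 1))) =
      (∏ s : Fin m, M (w s.castSucc) (w s.succ)) * M (w (Fin.last m)) (w 0) := by
    intro w
    rw [Fin.prod_univ_castSucc, Fin.last_add_one]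
    simp only [Fin.coeSucc_eq_succ]
  simp only [e]
  have h : ∀ (a b : ι), (∑ w : Fin (m + 1) → ι, (if w 0 = a then (1 : ℂ) else 0) *
      ((if w (Fin.last m) = b then 1 else 0) * ∏ s : Fin m, M (w s.castSucc) (w s.succ)) *
        M b a) = ∑ w : Fin (m + 1) → ι, (if w 0 = a then (1 : ℂ) else 0) *
      ((if w (Fin.last m) = b then 1 else 0) * ((∏ s : Fin m, M (w s.castSucc) (w s.succ)) *
        M b a)) := fun a b => Finset.sum_congr rfl fun w _ => by ring
  simp only [h]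
  rw [Finset.sum_congr rfl fun b _ => Finset.sum_comm]
  rw [Finset.sum_comm]
  refine Finset.sum_congr rfl fun w _ => ?_
  rw [Finset.sum_eq_single (w (Fin.last m))]
  · rw [Finset.sum_eq_single (w 0)]
    · simp
    · intro c _ hc
      rw [if_neg (Ne.symm hc)]
      ring
    · intro h
      exact absurd (mem_univ _) h
  · intro c _ hc
    refine Finset.sum_eq_zero fun a _ => ?_
    rw [if_neg (Ne.symm hc)]
    ring
  · intro h
    exact absurd (mem_univ _) h

end trace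

/-! ### Products of sines -/

theorem Sd_succ' (N d : ℕ) : Sd N (d + 1) = Sd N d * (2 * Real.sin (π * (d + 1) / N)) := by
  unfold Sd
  rw [Finset.prod_range_succ]

theorem Sd_pos' {N d : ℕ} (h : d < N) : 0 < Sd N d := by
  unfold Sd
  refine Finset.prod_pos fun k hk => ?_
  rw [mem_range] at hk
  have hN : (0 : ℝ) < N := by exact_mod_cast (show 0 < N by omega)
  have hk' : (k : ℝ) + 1 < N := by exact_mod_cast (show k + 1 < N by omega)
  have : 0 < Real.sin (π * (k + 1) / N) := by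
    apply Real.sin_pos_of_pos_of_lt_pi
    · positivity
    · rw [div_lt_iff₀ hN]
      exact mul_lt_mul_of_pos_left hk' Real.pi_pos
  linarith

theorem Sd_ne {N d : ℕ} (h : d < N) : (Sd N d : ℂ) ≠ 0 := by
  exact_mod_cast (Sd_pos' h).ne'

theorem prod_sin {N : ℕ} (j i : ℕ) (h : j ≤ i) (hi : i < N) :
    ∏ t ∈ Ioc j i, ((2 : ℂ) - 2 * (Real.cos (2 * π * t / N) : ℂ)) =
      ((Sd N i : ℂ) / Sd N j) ^ 2 := by
  induction i, h using Nat.le_induction with
  | base =>
    rw [Ioc_self, prod_empty, div_self (Sd_ne hi), one_pow]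
  | succ i hji ih =>
    rw [Finset.prod_Ioc_succ_top (by omega), ih (by omega), Sd_succ']
    have e : (2 : ℝ) - 2 * Real.cos (2 * π * ((i + 1 : ℕ) : ℝ) / N) =
        (2 * Real.sin (π * (i + 1) / N)) ^ 2 := by
      have h1 : 2 * π * ((i + 1 : ℕ) : ℝ) / N = 2 * (π * (i + 1) / N) := by
        push_cast
        ring
      rw [h1, Real.cos_two_mul]
      have h2 := Real.sin_sq_add_cos_sq (π * ((i : ℝ) + 1) / N)
      linear_combination (-4) * h2
    have e' : (2 : ℂ) - 2 * (Real.cos (2 * π * ((i + 1 : ℕ) : ℝ) / N) : ℂ) =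
        (((2 * Real.sin (π * (i + 1) / N)) : ℝ) : ℂ) ^ 2 := by
      rw [← Complex.ofReal_pow, ← e]
      push_cast
      ring
    have e2 : (2 : ℂ) - 2 * (Real.cos (2 * π * (((i + 1 : ℕ) : ℕ) : ℝ) / N) : ℂ) =
        (((2 * Real.sin (π * (i + 1) / N)) : ℝ) : ℂ) ^ 2 := e'
    rw [e2]
    push_cast
    ring

theorem prod_Ph {N : ℕ} (χ : ℂ) (j i : ℕ) (h : j ≤ i) (hi : i < N) :
    ∏ t ∈ Ioc j i, Ph N χ t = ((Sd N i : ℂ) / Sd N j) ^ 2 * Pq N j i χ := by
  rw [← prod_sin j i h hi]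
  unfold Pq Ph
  rw [← Finset.prod_mul_distrib]

/-! ### The matrix entries -/

/-- the contribution of `j` to the matrix entry -/
noncomputable def ee' (N i j i' : ℕ) (χ : ℂ) : ℂ :=
  if j ≤ i ∧ j ≤ i' then vN N ^ (((i : ℤ) - i') * j) /
    ((Sd N (i - j) : ℂ) * (Sd N (i' - j) : ℂ)) * Pq N j i' χ else 0

/-- the diagonal matrix -/
noncomputable def Dg (N i : ℕ) : ℂ := vN N ^ (-(i : ℤ)) * Sd N i

theorem vN_ne (N : ℕ) : vN N ≠ 0 := Complex.exp_ne_zero _

theorem Dg_ne {N i : ℕ} (h : i < N) : Dg N i ≠ 0 :=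
  mul_ne_zero (zpow_ne_zero _ (vN_ne N)) (Sd_ne h)

theorem entry {N : ℕ} {u u' : ℂ} (hc : ∀ j i : ℕ, j ≤ i → i < N →
    cJ N 1 j i = u * ((-1) ^ j * vN N ^ ((i : ℤ) * j + i) /
      ((Sd N (i - j) : ℂ) * ((Sd N i : ℂ) / Sd N j))) ∧
    cJ N (-1) j i = u' * ((-1) ^ j * vN N ^ (-((i : ℤ) * j + i)) /
      ((Sd N (i - j) : ℂ) * ((Sd N i : ℂ) / Sd N j)))) (χ : ℂ) (i j i' : Fin N) :
    MA0 N 1 i j * MB0 N χ (-1) j i' =
      u * u' * ((Dg N i)⁻¹ * ee' N i j i' χ * Dg N i') := by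
  unfold MA0 MB0 ee'
  by_cases h1 : j ≤ i
  · by_cases h2 : j ≤ i'
    · have h1' : (j : ℕ) ≤ i := h1
      have h2' : (j : ℕ) ≤ i' := h2
      rw [if_pos h1, if_pos h2, if_pos ⟨h1', h2'⟩, (hc j i h1' i.2).1, (hc j i' h2' i'.2).2,
        prod_Ph χ j i' h2' i'.2]
      have hv := vN_ne N
      have a1 := Sd_ne (N := N) (d := (i : ℕ) - j) (by omega)
      have a2 := Sd_ne (N := N) (d := (i' : ℕ) - j) (by omega)
      have a3 := Sd_ne (N := N) (d := (i : ℕ)) i.2
      have a4 := Sd_ne (N := N) (d := (i' : ℕ)) i'.2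
      have a5 := Sd_ne (N := N) (d := (j : ℕ)) j.2
      have e1 : vN N ^ (((i : ℕ) : ℤ) * ((j : ℕ) : ℤ) + ((i : ℕ) : ℤ)) *
          vN N ^ (-(((i' : ℕ) : ℤ) * ((j : ℕ) : ℤ) + ((i' : ℕ) : ℤ))) =
          vN N ^ (((i : ℕ) : ℤ)) * vN N ^ ((((i : ℕ) : ℤ) - ((i' : ℕ) : ℤ)) * ((j : ℕ) : ℤ)) *
            vN N ^ (-((i' : ℕ) : ℤ)) := by
        rw [← zpow_add₀ hv, ← zpow_add₀ hv, ← zpow_add₀ hv]
        congr 1
        ring
      have e2 : ((-1 : ℂ) ^ (j : ℕ)) * (-1) ^ (j : ℕ) = 1 := by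
        rw [← mul_pow]
        norm_num
      have e3 : (Dg N i)⁻¹ = vN N ^ (((i : ℕ) : ℤ)) / Sd N i := by
        unfold Dg
        rw [mul_inv, zpow_neg, inv_inv]
        rfl
      rw [e3]
      unfold Dg
      set P := Pq N j i' χ
      set x := vN N ^ (((i : ℕ) : ℤ) * ((j : ℕ) : ℤ) + ((i : ℕ) : ℤ))
      set y := vN N ^ (-(((i' : ℕ) : ℤ) * ((j : ℕ) : ℤ) + ((i' : ℕ) : ℤ)))
      set z := vN N ^ (((i : ℕ) : ℤ))
      set s := vN N ^ ((((i : ℕ) : ℤ) - ((i' : ℕ) : ℤ)) * ((j : ℕ) : ℤ))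
      set r := vN N ^ (-((i' : ℕ) : ℤ))
      calc u * ((-1) ^ (j : ℕ) * x / ((Sd N (i - j) : ℂ) * ((Sd N i : ℂ) / Sd N j))) *
            (((Sd N i' : ℂ) / Sd N j) ^ 2 * P *
              (u' * ((-1) ^ (j : ℕ) * y / ((Sd N (i' - j) : ℂ) * ((Sd N i' : ℂ) / Sd N j)))))
          = u * u' * (((-1 : ℂ) ^ (j : ℕ)) * (-1) ^ (j : ℕ)) * (x * y) * (P * (Sd N i' : ℂ) /
            (Sd N (i - j) * Sd N (i' - j) * Sd N i)) := by
            field_simp
        _ = u * u' * (z * s * r) * (P * (Sd N i' : ℂ) /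
            (Sd N (i - j) * Sd N (i' - j) * Sd N i)) := by rw [e1, e2, mul_one]
        _ = _ := by
            field_simp
    · rw [if_neg h2, if_neg (fun h : (j : ℕ) ≤ i ∧ (j : ℕ) ≤ i' => h2 h.2)]
      ring
  · rw [if_neg h1, if_neg (fun h : (j : ℕ) ≤ i ∧ (j : ℕ) ≤ i' => h1 h.1)]
    ring

theorem sum_fun (n N : ℕ) (F : (Fin n → ℕ) → ℂ) :
    ∑ w : Fin n → Fin N, F (fun r => (w r : ℕ)) =
      ∑ i ∈ Fintype.piFinset (fun _ : Fin n => range N), F i := by
  refine Finset.sum_bij' (fun w _ => fun r => (w r : ℕ))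
    (fun i hi => fun r => ⟨i r, mem_range.1 (Fintype.mem_piFinset.1 hi r)⟩) ?_ ?_ ?_ ?_ ?_
  · intro w _
    rw [Fintype.mem_piFinset]
    intro r
    rw [mem_range]
    exact (w r).2
  · intro i hi
    exact mem_univ _
  · intro w _
    rfl
  · intro i hi
    rfl
  · intro w _
    rfl

theorem Tf_eq {n N : ℕ} [NeZero n] {u u' : ℂ} (hc : ∀ j i : ℕ, j ≤ i → i < N →
    cJ N 1 j i = u * ((-1) ^ j * vN N ^ ((i : ℤ) * j + i) /
      ((Sd N (i - j) : ℂ) * ((Sd N i : ℂ) / Sd N j))) ∧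
    cJ N (-1) j i = u' * ((-1) ^ j * vN N ^ (-((i : ℤ) * j + i)) /
      ((Sd N (i - j) : ℂ) * ((Sd N i : ℂ) / Sd N j)))) (χ : ℂ) :
    Tf N (List.replicate n (1, -1)) χ =
      (u * u') ^ n * ∑ c ∈ cfg n N, co n N c.1 c.2 * Qc n N c.1 c.2 χ := by
  classical
  have e1 : Tf N (List.replicate n (1, -1)) χ = ((MA0 N 1 * MB0 N χ (-1)) ^ n).trace := by
    unfold Tf
    rw [List.map_replicate, List.prod_replicate]
  have e2 : ∀ i i' : Fin N, (MA0 N 1 * MB0 N χ (-1)) i i' =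
      ∑ j : Fin N, u * u' * ((Dg N i)⁻¹ * ee' N i j i' χ * Dg N i') := by
    intro i i'
    rw [Matrix.mul_apply]
    exact Finset.sum_congr rfl fun j _ => entry hc χ i j i'
  rw [e1, trace_pow_cyc]
  simp only [e2, Finset.prod_univ_sum, Fintype.piFinset_univ]
  have e3 : ∀ w z : Fin n → Fin N,
      (∏ r, u * u' * ((Dg N (w r))⁻¹ * ee' N (w r) (z r) (w (r + 1)) χ * Dg N (w (r + 1)))) =
      (u * u') ^ n * ∏ r, ee' N (w r) (z r) (w (r + 1)) χ := by
    intro w z
    rw [Finset.prod_mul_distrib, Finset.prod_const, card_univ, Fintype.card_fin,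
      Finset.prod_mul_distrib, Finset.prod_mul_distrib, Finset.prod_inv_distrib]
    have h1 : ∏ r : Fin n, Dg N (w (r + 1)) = ∏ r : Fin n, Dg N (w r) :=
      Equiv.prod_comp (Equiv.addRight (1 : Fin n)) (fun r => Dg N (w r))
    have h2 : ∏ r : Fin n, Dg N (w r) ≠ 0 := Finset.prod_ne_zero_iff.2 fun r _ => Dg_ne (w r).2
    rw [h1]
    field_simp
  simp only [e3]
  rw [Finset.mul_sum]
  simp only [← Finset.mul_sum]
  congr 1
  have e4 : ∀ i j : Fin n → ℕ, (∀ r, i r < N) → (∏ r, ee' N (i r) (j r) (i (r + 1)) χ) =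
      if Ok n N i j then co n N i j * Qc n N i j χ else 0 := by
    intro i j hi
    unfold ee'
    rw [Finset.prod_ite_zero]
    by_cases h : ∀ r : Fin n, j r ≤ i r ∧ j r ≤ i (r + 1)
    · rw [if_pos (fun r _ => h r), if_pos ⟨hi, fun r => (h r).1, fun r => (h r).2⟩]
      unfold co Qc
      rw [Finset.prod_mul_distrib]
    · rw [if_neg (fun h' => h fun r => h' r (mem_univ r)),
        if_neg (fun h' => h fun r => ⟨h'.le r, h'.le' r⟩)]
  unfold cfg
  rw [Finset.sum_filter, Finset.sum_product]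
  have e5 := sum_fun n N (fun i => ∑ j ∈ Fintype.piFinset (fun _ : Fin n => range N),
    ∏ r, ee' N (i r) (j r) (i (r + 1)) χ)
  have e6 : ∀ w : Fin n → Fin N, (∑ z : Fin n → Fin N,
      ∏ r, ee' N (w r) (z r) (w (r + 1)) χ) =
      ∑ j ∈ Fintype.piFinset (fun _ : Fin n => range N),
        ∏ r, ee' N (w r) (j r) (w (r + 1)) χ := fun w =>
    sum_fun n N (fun j => ∏ r, ee' N (w r) (j r) (w (r + 1)) χ)
  simp only [e6]
  rw [e5]
  refine Finset.sum_congr rfl fun i hi => Finset.sum_congr rfl fun j _ => ?_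
  rw [Fintype.mem_piFinset] at hi
  rw [e4 i j (fun r => mem_range.1 (hi r))]

theorem Qc_diff (n N : ℕ) [NeZero n] (i j : Fin n → ℕ) : Differentiable ℂ (Qc n N i j) := by
  unfold Qc Pq
  fun_prop

theorem exa : S_EXA := by
  intro hE hC n N _ hN
  obtain ⟨u, u', hu, hu', hc⟩ := hC N hN
  have h1 := hE N (List.replicate n (1, -1)) 0 hN (by
    rw [Ne, List.replicate_eq_nil_iff]
    exact NeZero.ne n)
  have h2 : ftw 0 = [] := rfl
  rw [h2, List.nil_append] at h1
  rw [h1]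
  have h3 : ∀ χ : ℂ, wE N 0 χ * Tf N (List.replicate n (1, -1)) χ =
      ∑ c ∈ cfg n N, (u * u') ^ n * co n N c.1 c.2 *
        (Complex.sin χ * Qc n N c.1 c.2 χ) := by
    intro χ
    rw [Tf_eq hc, wE, Ea]
    simp only [mul_zero, Int.cast_zero, zero_mul, zero_div, Complex.exp_zero, mul_one]
    rw [← mul_assoc, Finset.mul_sum]
    refine Finset.sum_congr rfl fun c _ => ?_
    ring
  have h4 : ∀ z : ℂ, deriv (fun χ => wE N 0 χ * Tf N (List.replicate n (1, -1)) χ) z =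
      ∑ c ∈ cfg n N, (u * u') ^ n * co n N c.1 c.2 *
        deriv (fun χ => Complex.sin χ * Qc n N c.1 c.2 χ) z := by
    intro z
    simp only [h3]
    have hd : ∀ c ∈ cfg n N, DifferentiableAt ℂ (fun χ => Complex.sin χ * Qc n N c.1 c.2 χ) z :=
      fun c _ => (Complex.differentiable_sin.mul (Qc_diff n N c.1 c.2)) z
    rw [deriv_fun_sum (fun c hcc => (hd c hcc).const_mul _)]
    refine Finset.sum_congr rfl fun c hcc => ?_
    rw [deriv_const_mul _ (hd c hcc)]
  have h5 : ∑ p ∈ range N, deriv (fun χ => wE N 0 χ * Tf N (List.replicate n (1, -1)) χ)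
      (2 * π * p / N) = (u * u') ^ n * ∑ c ∈ cfg n N, ct n N c.1 c.2 := by
    simp only [h4]
    rw [Finset.sum_comm, Finset.mul_sum]
    refine Finset.sum_congr rfl fun c _ => ?_
    rw [← Finset.mul_sum]
    unfold ct
    ring
  rw [h5]
  simp only [Int.cast_zero, mul_zero, zero_mul, sub_zero]
  rw [norm_mul, norm_pow, norm_mul, hu, hu', mul_one, one_pow, one_mul]

end Pool.Agent.Y941.TK
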